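import Pool.Agent.Helper54.SigmaDens.Numeric

/-!
# The integers `s` with `σ(s) = σ(q) + σ(s - q)` have a logarithmic density

Let `S` be the set of the integers `s ≥ 2` such that `σ(s) = σ(q) + σ(s - q)` for some `q` with
`1 ≤ q < s`. We prove that `S` has a logarithmic density `δ`, that `δ` is also the lower
asymptotic density of `S`, that `δ` is the limit of the asymptotic densities of the explicit
periodic sets `P T ⊆ S` generated by the solutions with `s ≤ T`, and that `δ ≥ 7/20`.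
-/

namespace Pool.Agent.Results.MP_f926e9_nt.LogDensity

open Finset Filter Topology ArithmeticFunction

/-- The set of the problem: integers `s ≥ 2` such that `σ(s) = σ(q) + σ(s - q)` for some `q` with
`1 ≤ q < s`. -/
def S : Set ℕ := {s | 2 ≤ s ∧ ∃ q, 1 ≤ q ∧ q < s ∧ sigma 1 s = sigma 1 q + sigma 1 (s - q)}

/-- The set of the integers `d * m` such that `d ≤ T`, `σ(d) = σ(q) + σ(d - q)` for some `q` with
`1 ≤ q < d`, and `m ≥ 1` is coprime to `q * (d - q) * d`. -/
def P (T : ℕ) : Set ℕ := {n | ∃ d q m, d ≤ T ∧ 1 ≤ q ∧ q < d ∧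
  sigma 1 d = sigma 1 q + sigma 1 (d - q) ∧ 1 ≤ m ∧ Nat.Coprime m (q * (d - q) * d) ∧ n = d * m}

open Classical in
/-- The proportion of the elements of `A` among the integers `1, …, x`. -/
noncomputable def proportion (A : Set ℕ) (x : ℕ) : ℝ := (((Icc 1 x).filter (· ∈ A)).card : ℝ) / x

/-- `A` has asymptotic density `δ`. -/
def HasDensity (A : Set ℕ) (δ : ℝ) : Prop := Tendsto (proportion A) atTop (𝓝 δ)

/-- The lower asymptotic density of `A`. -/
noncomputable def lowerDensity (A : Set ℕ) : ℝ := liminf (proportion A) atTop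

open Classical in
/-- `A` has logarithmic density `δ`: the sum of `1/n` over the `n ∈ A`, `n ≤ x`, divided by
`log x` tends to `δ`. -/
def HasLogDensity (A : Set ℕ) (δ : ℝ) : Prop :=
  Tendsto (fun x : ℕ => (∑ n ∈ (Icc 1 x).filter (· ∈ A), (1 : ℝ) / n) / Real.log x) atTop (𝓝 δ)

lemma P_subset (T : ℕ) : P T ⊆ S := by
  rintro n ⟨d, q, m, _, h1, h2, h3, h4, h5, rfl⟩
  exact Pool.Agent.Helper54.SigmaDens.closed h1 h2 h3 (by omega) h5

lemma P_mono {T T' : ℕ} (h : T ≤ T') : P T ⊆ P T' := by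
  rintro n ⟨d, q, m, h0, h1⟩
  exact ⟨d, q, m, h0.trans h, h1⟩

lemma proportion_eq (A : Set ℕ) (x : ℕ) :
    proportion A x = (Pool.Agent.Helper54.SigmaDens.N A x : ℝ) / x := rfl

lemma P_density (T : ℕ) : ∃ μ, HasDensity (P T) μ := by
  classical
  let F : Finset (ℕ × ℕ) := ((range (T + 1)) ×ˢ (range (T + 1))).filter (fun x =>
    1 ≤ x.2 ∧ x.2 < x.1 ∧ sigma 1 x.1 = sigma 1 x.2 + sigma 1 (x.1 - x.2))
  obtain ⟨μ, hμ⟩ := Pool.Agent.Helper54.SigmaDens.clg_density F (fun x => x.1)
    (fun x => x.2 * (x.1 - x.2) * x.1) (by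
      intro x hx
      simp only [F, Finset.mem_filter] at hx
      obtain ⟨_, h1, h2, _⟩ := hx
      refine ⟨by omega, ?_⟩
      exact mul_ne_zero (mul_ne_zero (by omega) (by omega)) (by omega))
  refine ⟨μ, ?_⟩
  have : P T = Pool.Agent.Helper54.SigmaDens.clg F (fun x => x.1)
      (fun x => x.2 * (x.1 - x.2) * x.1) := by
    ext n
    constructor
    · rintro ⟨d, q, m, h0, h1, h2, h3, h4, h5, h6⟩
      refine ⟨(d, q), ?_, m, by omega, h5, h6⟩
      simp only [F, Finset.mem_filter, Finset.mem_product, Finset.mem_range]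
      exact ⟨⟨by omega, by omega⟩, h1, h2, h3⟩
    · rintro ⟨⟨d, q⟩, hx, m, hm, h5, h6⟩
      simp only [F, Finset.mem_filter, Finset.mem_product, Finset.mem_range] at hx
      exact ⟨d, q, m, by omega, hx.2.1, hx.2.2.1, hx.2.2.2, by omega, h5, h6⟩
  rw [this]
  exact hμ

/-- **The set `S` has a logarithmic density, which is its lower asymptotic density.** -/
theorem result : ∃ δ : ℝ, 7 / 20 ≤ δ ∧ HasLogDensity S δ ∧ lowerDensity S = δ ∧
    ∃ d : ℕ → ℝ, (∀ T, P T ⊆ S ∧ HasDensity (P T) (d T)) ∧ Monotone d ∧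
      Tendsto d atTop (𝓝 δ) := by
  classical
  -- a choice of representations
  let c : ℕ → ℕ := fun d => if h : d ∈ S then h.2.choose * (d - h.2.choose) * d else 1
  have hcspec : ∀ d (hd : d ∈ S), ∃ q, 1 ≤ q ∧ q < d ∧ sigma 1 d = sigma 1 q + sigma 1 (d - q) ∧
      c d = q * (d - q) * d := by
    intro d hd
    refine ⟨hd.2.choose, hd.2.choose_spec.1, hd.2.choose_spec.2.1, hd.2.choose_spec.2.2, ?_⟩
    simp only [c, dif_pos hd]
  obtain ⟨δ, h1, h2, h3, h4⟩ := Pool.Agent.Helper54.SigmaDens.general S c 3 (by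
    intro d hd
    obtain ⟨q, hq1, hq2, _, hq4⟩ := hcspec d hd
    rw [hq4]
    refine ⟨by omega, mul_ne_zero (mul_ne_zero (by omega) (by omega)) (by omega), ?_⟩
    calc q * (d - q) * d ≤ d * d * d :=
          Nat.mul_le_mul_right _ (Nat.mul_le_mul hq2.le (Nat.sub_le _ _))
      _ = d ^ 3 := by ring) (by
    intro d hd m hm hco
    obtain ⟨q, hq1, hq2, hq3, hq4⟩ := hcspec d hd
    rw [hq4] at hco
    exact Pool.Agent.Helper54.SigmaDens.closed hq1 hq2 hq3 hm hco)
  choose μ hμ using P_density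
  have hμδ : ∀ T, μ T ≤ δ := by
    intro T
    refine le_of_forall_lt fun a ha => ?_
    obtain ⟨b, hb1, hb2⟩ := exists_between ha
    refine hb1.trans_le (h3 b ?_)
    filter_upwards [(hμ T).eventually (lt_mem_nhds hb2)] with x hx
    refine hx.le.trans ?_
    rw [proportion_eq]
    exact div_le_div_of_nonneg_right
      (by exact_mod_cast Pool.Agent.Helper54.SigmaDens.N_mono (P_subset T) x) (Nat.cast_nonneg _)
  have hmono : Monotone μ := by
    intro T T' hTT
    refine le_of_tendsto_of_tendsto' (hμ T) (hμ T') fun x => ?_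
    rw [proportion_eq, proportion_eq]
    exact div_le_div_of_nonneg_right
      (by exact_mod_cast Pool.Agent.Helper54.SigmaDens.N_mono (P_mono hTT) x) (Nat.cast_nonneg _)
  refine ⟨δ, h3 _ Pool.Agent.Helper54.SigmaDens.lower_bound, h1, h2, μ,
    fun T => ⟨P_subset T, hμ T⟩, hmono, ?_⟩
  rw [tendsto_order]
  constructor
  · intro a ha
    obtain ⟨F, hF, ν, haν, hν⟩ := h4 a ha
    obtain ⟨T₀, hT₀⟩ := F.bddAbove
    have hsub : Pool.Agent.Helper54.SigmaDens.cl F c ⊆ P T₀ := by
      rintro n ⟨d, hd, m, hm, hco, hn⟩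
      obtain ⟨q, hq1, hq2, hq3, hq4⟩ := hcspec d (hF hd)
      rw [hq4] at hco
      exact ⟨d, q, m, hT₀ hd, hq1, hq2, hq3, by omega, hco, hn⟩
    have hνμ : ν ≤ μ T₀ := by
      refine le_of_tendsto_of_tendsto' hν (hμ T₀) fun x => ?_
      rw [proportion_eq]
      exact div_le_div_of_nonneg_right
        (by exact_mod_cast Pool.Agent.Helper54.SigmaDens.N_mono hsub x) (Nat.cast_nonneg _)
    filter_upwards [eventually_ge_atTop T₀] with T hT
    exact haν.trans_le (hνμ.trans (hmono hT))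
  · intro a ha
    exact Eventually.of_forall fun T => (hμδ T).trans_lt ha

end Pool.Agent.Results.MP_f926e9_nt.LogDensity
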